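import Mathlib

/-!
# A nearfield design that is not isomorphic to the Galois field design

There are a nearfield `N` of order `343 = 7 ^ 3` and a subgroup `G` of order `9` of its multiplicative
group such that the design `D(N, Φ, G)` is not isomorphic to `D(343, 9)`.
-/

namespace Pool.Agent.Results.MP_fd05bb_co.OrderNine

/-- A (right) nearfield: `(N, +)` is an abelian group, the nonzero elements form a group under `*`,
`0 * x = x * 0 = 0`, and `(x + y) * z = x * z + y * z`. -/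
class Nearfield (N : Type) extends AddCommGroup N, GroupWithZero N where
  right_distrib : ∀ x y z : N, (x + y) * z = x * z + y * z

/-- Every field is a nearfield. -/
abbrev fieldNearfield (F : Type) [Field F] : Nearfield F where
  right_distrib := add_mul

/-- The blocks `G φ_{s,a} = {g * s + a : g ∈ G}`, `s ∈ S`, `a ∈ N`. -/
def Blocks (N : Type) [Add N] [Monoid N] (S G : Subgroup Nˣ) : Set (Set N) :=
  {B | ∃ s ∈ S, ∃ a : N, B = {x | ∃ g ∈ G, x = (g : N) * (s : N) + a}}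

/-- Isomorphism of incidence structures given by their blocks as sets of points: a bijection of the
points which maps the set of blocks onto the set of blocks. -/
def Iso {X Y : Type} (A : Set (Set X)) (B : Set (Set Y)) : Prop :=
  ∃ e : X ≃ Y, (fun T : Set X => e '' T) '' A = B

/-- The statement of the question: for every nearfield `N` of order `q ≡ 3 mod 4`, the subgroup `S`
of order `(q - 1) / 2` of its multiplicative group, every subgroup `G ≤ S` with more than one element,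
and every field `F` of order `q` with the subgroup `G'` of the same order as `G`, the designs
`D(N, Φ, G)` and `D(F, Φ', G')` are isomorphic. -/
def Question : Prop :=
  ∀ (N : Type) (_ : Nearfield N) (S G : Subgroup Nˣ) (F : Type) (_ : Field F)
    (S' G' : Subgroup Fˣ), Nat.card N % 4 = 3 → Nat.card S = (Nat.card N - 1) / 2 → G ≤ S →
    1 < Nat.card G → Nat.card F = Nat.card N → Nat.card S' = (Nat.card N - 1) / 2 → G' ≤ S' →
    Nat.card G' = Nat.card G → Iso (Blocks N S G) (Blocks F S' G')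

/-! ## The field with 343 elements as `GF(7)[t] / (t ^ 3 - 2)` -/

@[ext] structure K where
  a : ZMod 7
  b : ZMod 7
  c : ZMod 7
deriving DecidableEq

namespace K

def equiv : K ≃ ZMod 7 × ZMod 7 × ZMod 7 where
  toFun x := (x.a, x.b, x.c)
  invFun x := ⟨x.1, x.2.1, x.2.2⟩
  left_inv _ := rfl
  right_inv _ := rfl

instance : Fintype K := Fintype.ofEquiv _ equiv.symm

theorem card_K : Fintype.card K = 343 := by
  rw [Fintype.card_congr equiv]; simp [ZMod.card]

instance : Zero K := ⟨⟨0, 0, 0⟩⟩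
instance : One K := ⟨⟨1, 0, 0⟩⟩
instance : Add K := ⟨fun x y => ⟨x.a + y.a, x.b + y.b, x.c + y.c⟩⟩
instance : Neg K := ⟨fun x => ⟨-x.a, -x.b, -x.c⟩⟩
instance : Mul K := ⟨fun x y => ⟨x.a * y.a + 2 * (x.b * y.c + x.c * y.b),
  x.a * y.b + x.b * y.a + 2 * x.c * y.c, x.a * y.c + x.b * y.b + x.c * y.a⟩⟩

@[simp] theorem zero_a : (0 : K).a = 0 := rfl
@[simp] theorem zero_b : (0 : K).b = 0 := rfl
@[simp] theorem zero_c : (0 : K).c = 0 := rfl
@[simp] theorem one_a : (1 : K).a = 1 := rfl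
@[simp] theorem one_b : (1 : K).b = 0 := rfl
@[simp] theorem one_c : (1 : K).c = 0 := rfl
@[simp] theorem add_a (x y : K) : (x + y).a = x.a + y.a := rfl
@[simp] theorem add_b (x y : K) : (x + y).b = x.b + y.b := rfl
@[simp] theorem add_c (x y : K) : (x + y).c = x.c + y.c := rfl
@[simp] theorem neg_a (x : K) : (-x).a = -x.a := rfl
@[simp] theorem neg_b (x : K) : (-x).b = -x.b := rfl
@[simp] theorem neg_c (x : K) : (-x).c = -x.c := rfl
@[simp] theorem mul_a (x y : K) : (x * y).a = x.a * y.a + 2 * (x.b * y.c + x.c * y.b) := rfl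
@[simp] theorem mul_b (x y : K) : (x * y).b = x.a * y.b + x.b * y.a + 2 * x.c * y.c := rfl
@[simp] theorem mul_c (x y : K) : (x * y).c = x.a * y.c + x.b * y.b + x.c * y.a := rfl

instance : CommRing K where
  add_assoc x y z := by ext <;> simp <;> ring
  zero_add x := by ext <;> simp
  add_zero x := by ext <;> simp
  add_comm x y := by ext <;> simp <;> ring
  neg_add_cancel x := by ext <;> simp
  mul_assoc x y z := by ext <;> simp <;> ring
  one_mul x := by ext <;> simp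
  mul_one x := by ext <;> simp
  zero_mul x := by ext <;> simp
  mul_zero x := by ext <;> simp
  mul_comm x y := by ext <;> simp <;> ring
  left_distrib x y z := by ext <;> simp <;> ring
  right_distrib x y z := by ext <;> simp <;> ring
  nsmul := nsmulRec
  zsmul := zsmulRec

/-- The norm to `GF(7)`. -/
def norm (x : K) : ZMod 7 := x.a ^ 3 + 2 * x.b ^ 3 + 4 * x.c ^ 3 - 6 * x.a * x.b * x.c

theorem norm_mul (x y : K) : norm (x * y) = norm x * norm y := by
  simp only [norm, mul_a, mul_b, mul_c]; ring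

/-- The automorphism `t ↦ m * t` (for `m ^ 3 = 1`). -/
def tau (m : ZMod 7) (x : K) : K := ⟨x.a, m * x.b, m ^ 2 * x.c⟩

@[simp] theorem tau_a (m : ZMod 7) (x : K) : (tau m x).a = x.a := rfl
@[simp] theorem tau_b (m : ZMod 7) (x : K) : (tau m x).b = m * x.b := rfl
@[simp] theorem tau_c (m : ZMod 7) (x : K) : (tau m x).c = m ^ 2 * x.c := rfl

theorem tau_add (m : ZMod 7) (x y : K) : tau m (x + y) = tau m x + tau m y := by
  ext <;> simp <;> ring

theorem tau_mul (m : ZMod 7) (hm : m ^ 3 = 1) (x y : K) : tau m (x * y) = tau m x * tau m y := by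
  ext
  · simp only [tau_a, mul_a, tau_b, tau_c]; linear_combination (-2 * (x.b * y.c + x.c * y.b)) * hm
  · simp only [tau_a, mul_b, tau_b, tau_c]; linear_combination (-2 * m * x.c * y.c) * hm
  · simp only [tau_a, mul_c, tau_b, tau_c]; ring

theorem tau_tau (m n : ZMod 7) (x : K) : tau m (tau n x) = tau (m * n) x := by
  ext <;> simp <;> ring

theorem tau_one (x : K) : tau 1 x = x := by
  ext <;> simp

theorem norm_tau (m : ZMod 7) (hm : m ^ 3 = 1) (x : K) : norm (tau m x) = norm x := by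
  simp only [norm, tau_a, tau_b, tau_c]
  linear_combination (2 * x.b ^ 3 + 4 * x.c ^ 3 * (m ^ 3 + 1) - 6 * x.a * x.b * x.c) * hm

/-- The inverse. -/
def inv (x : K) : K :=
  tau 2 x * tau 4 x * ⟨norm x ^ 5, 0, 0⟩

theorem mul_inv' : ∀ x : K, x ≠ 0 → x * inv x = 1 := by decide +kernel

theorem inv_zero' : inv 0 = 0 := by decide +kernel

instance : Inv K := ⟨inv⟩

instance : Nontrivial K := ⟨0, 1, by decide⟩

instance : Field K where
  mul_inv_cancel := mul_inv'
  inv_zero := inv_zero'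
  nnqsmul := _
  nnqsmul_def := fun _ _ => rfl
  qsmul := _
  qsmul_def := fun _ _ => rfl

theorem norm_ne : ∀ x : K, x ≠ 0 → norm x ≠ 0 := by decide +kernel

end K

/-! ## The Dickson nearfield -/

open K

/-- The nearfield with 343 elements: same addition as the field `K`, and
`x * z = tau (norm z ^ 2) x * z`. -/
def NF : Type := K

instance : DecidableEq NF := inferInstanceAs (DecidableEq K)
instance : Fintype NF := inferInstanceAs (Fintype K)
instance instACG : AddCommGroup NF := inferInstanceAs (AddCommGroup K)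

def nmul (x z : K) : K := tau (norm z ^ 2) x * z

def ninv (z : K) : K := tau (norm z ^ 4) z⁻¹

theorem pow6 : ∀ m : ZMod 7, m ≠ 0 → m ^ 6 = 1 := by decide

theorem nsq (z : K) (hz : z ≠ 0) : (norm z ^ 2) ^ 3 = 1 := by
  rw [← pow_mul]; exact pow6 _ (norm_ne z hz)

theorem norm_zero : norm (0 : K) = 0 := by decide
theorem norm_one : norm (1 : K) = 1 := by decide

theorem tau_zero' (m : ZMod 7) : tau m 0 = 0 := by
  ext <;> simp

theorem nmul_zero (x : K) : nmul x 0 = 0 := by simp [nmul]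
theorem zero_nmul (x : K) : nmul 0 x = 0 := by simp [nmul, tau_zero']

theorem nmul_assoc (x y z : K) : nmul (nmul x y) z = nmul x (nmul y z) := by
  by_cases hy : y = 0
  · subst hy; rw [nmul_zero, zero_nmul, nmul_zero]
  by_cases hz : z = 0
  · subst hz; rw [nmul_zero, nmul_zero, nmul_zero]
  unfold nmul
  rw [tau_mul _ (nsq z hz), tau_tau, norm_mul, norm_tau _ (nsq z hz), mul_assoc, mul_pow,
    mul_comm (norm z ^ 2)]

theorem nmul_one (x : K) : nmul x 1 = x := by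
  simp [nmul, norm_one, tau_one]

theorem tau_one' (m : ZMod 7) : tau m 1 = 1 := by
  ext <;> simp

theorem one_nmul (x : K) : nmul 1 x = x := by
  simp [nmul, tau_one']

theorem norm_inv (z : K) (hz : z ≠ 0) : norm z⁻¹ ^ 2 = norm z ^ 4 := by
  have h1 : norm z * norm z⁻¹ = 1 := by
    rw [← norm_mul, mul_inv_cancel₀ hz, norm_one]
  have h2 := pow6 _ (norm_ne z hz)
  calc norm z⁻¹ ^ 2 = norm z⁻¹ ^ 2 * norm z ^ 6 := by rw [h2, mul_one]
    _ = (norm z * norm z⁻¹) ^ 2 * norm z ^ 4 := by ring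
    _ = _ := by rw [h1]; ring

theorem nmul_inv (z : K) (hz : z ≠ 0) : nmul z (ninv z) = 1 := by
  have h4 : (norm z ^ 4) ^ 3 = 1 := by
    have := pow6 _ (norm_ne z hz)
    calc (norm z ^ 4) ^ 3 = (norm z ^ 6) ^ 2 := by ring
      _ = 1 := by rw [this]; ring
  unfold nmul ninv
  rw [norm_tau _ h4, norm_inv z hz, ← tau_mul _ h4, mul_inv_cancel₀ hz, tau_one']

theorem ninv_zero : ninv 0 = 0 := by
  unfold ninv; rw [inv_zero, tau_zero']

theorem nmul_add (x y z : K) : nmul (x + y) z = nmul x z + nmul y z := by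
  unfold nmul
  rw [tau_add, add_mul]

instance instGWZ : GroupWithZero NF where
  mul x y := nmul x y
  mul_assoc := nmul_assoc
  one := (1 : K)
  one_mul := one_nmul
  mul_one := nmul_one
  zero := (0 : K)
  zero_mul := zero_nmul
  mul_zero := nmul_zero
  inv := ninv
  exists_pair_ne := ⟨(0 : K), (1 : K), (by decide : (0 : K) ≠ 1)⟩
  inv_zero := ninv_zero
  mul_inv_cancel := nmul_inv

instance instNF : Nearfield NF where
  __ := instACG
  __ := instGWZ
  right_distrib := nmul_add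

/-- The underlying element of the field `K`. -/
def toK (x : NF) : K := x

theorem toK_mul (x y : NF) : toK (x * y) = nmul (toK x) (toK y) := rfl
theorem toK_add (x y : NF) : toK (x + y) = toK x + toK y := rfl
theorem toK_one : toK 1 = 1 := rfl
theorem toK_zero : toK 0 = 0 := rfl
theorem toK_inv (x : NF) : toK x⁻¹ = ninv (toK x) := rfl
theorem toK_inj {x y : NF} (h : toK x = toK y) : x = y := h
theorem toK_ne (x : NFˣ) : toK (x : NF) ≠ 0 := fun h => x.ne_zero (toK_inj h)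

/-- The elements of the subgroup of order `9` of the nearfield. -/
def L9 : List K := [⟨1, 0, 0⟩, ⟨2, 0, 0⟩, ⟨4, 0, 0⟩, ⟨0, 3, 1⟩, ⟨0, 6, 2⟩, ⟨0, 5, 4⟩, ⟨1, 4, 1⟩,
  ⟨2, 1, 2⟩, ⟨4, 2, 4⟩]

theorem L9_mul : ∀ x ∈ L9, ∀ y ∈ L9, nmul x y ∈ L9 := by decide +kernel
theorem L9_inv : ∀ x ∈ L9, ninv x ∈ L9 := by decide +kernel
theorem L9_norm : ∀ x ∈ L9, norm x ^ 3 = 1 := by decide +kernel

theorem norm_nmul (x z : K) (hz : z ≠ 0) : norm (nmul x z) = norm x * norm z := by
  unfold nmul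
  rw [norm_mul, norm_tau _ (nsq z hz)]

/-- The subgroup `S` of order `171`. -/
def SN : Subgroup NFˣ where
  carrier := {u | norm (toK (u : NF)) ^ 3 = 1}
  mul_mem' := by
    intro x y hx hy
    rw [Set.mem_ofPred_eq] at hx hy ⊢
    rw [Units.val_mul, toK_mul, norm_nmul _ _ (toK_ne y), mul_pow, hx, hy, one_mul]
  one_mem' := by
    rw [Set.mem_ofPred_eq, Units.val_one, toK_one, norm_one, one_pow]
  inv_mem' := by
    intro x hx
    rw [Set.mem_ofPred_eq] at hx ⊢
    have h1 : nmul (toK (x : NF)) (toK ((x⁻¹ : NFˣ) : NF)) = 1 := by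
      rw [← toK_mul, x.mul_inv, toK_one]
    have h2 := norm_nmul (toK (x : NF)) (toK ((x⁻¹ : NFˣ) : NF)) (toK_ne x⁻¹)
    rw [h1, norm_one] at h2
    have h3 : norm (toK (x : NF)) ^ 3 * norm (toK ((x⁻¹ : NFˣ) : NF)) ^ 3 = 1 := by
      rw [← mul_pow, ← h2, one_pow]
    rwa [hx, one_mul] at h3

/-- The subgroup `G` of order `9`. -/
def GN : Subgroup NFˣ where
  carrier := {u | toK (u : NF) ∈ L9}
  mul_mem' := by
    intro x y hx hy
    exact L9_mul _ hx _ hy
  one_mem' := by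
    rw [Set.mem_ofPred_eq, Units.val_one, toK_one]
    decide
  inv_mem' := by
    intro x hx
    rw [Set.mem_ofPred_eq] at hx ⊢
    rw [Units.val_inv_eq_inv_val, toK_inv]
    exact L9_inv _ hx

theorem card_sub (M : Type) [GroupWithZero M] [Fintype M] (H : Subgroup Mˣ) (P : M → Prop)
    [DecidablePred P] (h0 : ¬ P 0) (hH : ∀ u : Mˣ, u ∈ H ↔ P (u : M)) :
    Nat.card H = (Finset.univ.filter P).card := by
  have e : H ≃ {x : M // P x} :=
    { toFun := fun h => ⟨(h.1 : M), (hH _).1 h.2⟩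
      invFun := fun x => ⟨Units.mk0 x.1 (fun h => h0 (h ▸ x.2)), (hH _).2 x.2⟩
      left_inv := fun h => Subtype.ext (Units.ext rfl)
      right_inv := fun x => Subtype.ext rfl }
  rw [Nat.card_congr e, Nat.card_eq_fintype_card, Fintype.card_subtype]

theorem card_GN : Nat.card GN = 9 := by
  rw [card_sub NF GN (fun x => toK x ∈ L9) (by decide) (fun u => Iff.rfl)]
  decide +kernel

theorem card_SN : Nat.card SN = 171 := by
  rw [card_sub NF SN (fun x => norm (toK x) ^ 3 = 1) (by decide) (fun u => Iff.rfl)]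
  decide +kernel

theorem GN_le : GN ≤ SN := fun _ hx => L9_norm _ hx

theorem card_NF : Nat.card NF = 343 := by
  rw [Nat.card_eq_fintype_card]; exact card_K

/-! ## The field side -/

/-- The ninth roots of unity. -/
def R9 : List K := [⟨1, 0, 0⟩, ⟨2, 0, 0⟩, ⟨4, 0, 0⟩, ⟨0, 1, 0⟩, ⟨0, 2, 0⟩, ⟨0, 4, 0⟩, ⟨0, 0, 1⟩,
  ⟨0, 0, 2⟩, ⟨0, 0, 4⟩]

theorem R9_mem : ∀ x : K, x ^ 9 = 1 → x ∈ R9 := by decide +kernel

theorem R9_pow : ∀ x ∈ R9, x ^ 9 = 1 := by decide +kernel

theorem R9_key_aux : (R9.all fun u => R9.all fun v => R9.all fun u' => R9.all fun v' =>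
    decide (u = 1) || decide (v = 1) || decide (u = v) || decide (u' = 1) || decide (v' = 1) ||
    !decide ((u - 1) * (v' - 1) = (v - 1) * (u' - 1)) || decide (u' = u)) = true := by
  decide +kernel

theorem R9_key (u : K) (hu : u ∈ R9) (v : K) (hv : v ∈ R9) (u' : K) (hu' : u' ∈ R9) (v' : K)
    (hv' : v' ∈ R9) (h1 : u ≠ 1) (h2 : v ≠ 1) (h3 : u ≠ v) (h4 : u' ≠ 1) (h5 : v' ≠ 1)
    (h : (u - 1) * (v' - 1) = (v - 1) * (u' - 1)) : u' = u := by
  have H := R9_key_aux
  simp only [List.all_eq_true] at H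
  have := H u hu v hv u' hu' v' hv'
  simpa [h1, h2, h3, h4, h5, h] using this

theorem field_key (F : Type) [Field F] (hF : Nat.card F = 343) (u v u' v' : F) (hu : u ^ 9 = 1)
    (hv : v ^ 9 = 1) (hu' : u' ^ 9 = 1) (hv' : v' ^ 9 = 1) (h1 : u ≠ 1) (h2 : v ≠ 1) (h3 : u ≠ v)
    (h4 : u' ≠ 1) (h5 : v' ≠ 1) (h : (u - 1) * (v' - 1) = (v - 1) * (u' - 1)) : u' = u := by
  have : Finite F := Nat.finite_of_card_ne_zero (by rw [hF]; norm_num)
  let _ : Fintype F := Fintype.ofFinite F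
  have hc : Fintype.card F = Fintype.card K := by
    rw [card_K, ← hF, Nat.card_eq_fintype_card]
  let e : F ≃+* K := FiniteField.ringEquivOfCardEq hc
  have hm : ∀ x : F, x ^ 9 = 1 → e x ∈ R9 := by
    intro x hx
    apply R9_mem
    rw [← map_pow, hx, map_one]
  have hn : ∀ x : F, x ≠ 1 → e x ≠ 1 := by
    intro x hx h
    exact hx (e.injective (by rw [h, map_one]))
  apply e.injective
  apply R9_key (e u) (hm u hu) (e v) (hm v hv) (e u') (hm u' hu') (e v') (hm v' hv') (hn u h1)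
    (hn v h2) (fun h => h3 (e.injective h)) (hn u' h4) (hn v' h5)
  have := congrArg e h
  simpa using this

theorem field_blocks (F : Type) [Field F] (hF : Nat.card F = 343) (S G : Subgroup Fˣ)
    (hG : Nat.card G = 9) (B₁ B₂ : Set F) (h1 : B₁ ∈ Blocks F S G) (h2 : B₂ ∈ Blocks F S G)
    (p q r : F) (hpq : p ≠ q) (hpr : p ≠ r) (hqr : q ≠ r) (hp1 : p ∈ B₁) (hp2 : p ∈ B₂)
    (hq1 : q ∈ B₁) (hq2 : q ∈ B₂) (hr1 : r ∈ B₁) (hr2 : r ∈ B₂) : B₁ = B₂ := by
  obtain ⟨s₁, hs₁, a₁, rfl⟩ := h1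
  obtain ⟨s₂, hs₂, a₂, rfl⟩ := h2
  obtain ⟨g₁, hg₁, e1⟩ := hp1
  obtain ⟨g₂, hg₂, e2⟩ := hq1
  obtain ⟨g₃, hg₃, e3⟩ := hr1
  obtain ⟨k₁, hk₁, f1⟩ := hp2
  obtain ⟨k₂, hk₂, f2⟩ := hq2
  obtain ⟨k₃, hk₃, f3⟩ := hr2
  have pow9 : ∀ g ∈ G, (g : F) ^ 9 = 1 := by
    intro g hg
    have : (⟨g, hg⟩ : G) ^ 9 = 1 := by
      rw [← hG]; exact pow_card_eq_one'
    have h := congrArg (fun x : G => ((x : Fˣ) : F)) this
    simpa using h
  have n1 : (s₁ : F) ≠ 0 := s₁.ne_zero
  have n2 : (s₂ : F) ≠ 0 := s₂.ne_zero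
  have n3 : (g₁ : F) ≠ 0 := g₁.ne_zero
  have n4 : (k₁ : F) ≠ 0 := k₁.ne_zero
  have d9 : ∀ g ∈ G, ∀ k ∈ G, ((g : F) / (k : F)) ^ 9 = 1 := by
    intro g hg k hk
    rw [div_pow, pow9 g hg, pow9 k hk, div_one]
  have g12 : (g₂ : F) ≠ g₁ := by
    intro h; apply hpq; rw [e1, e2, h]
  have g13 : (g₃ : F) ≠ g₁ := by
    intro h; apply hpr; rw [e1, e3, h]
  have g23 : (g₂ : F) ≠ g₃ := by
    intro h; apply hqr; rw [e2, e3, h]
  have k12 : (k₂ : F) ≠ k₁ := by
    intro h; apply hpq; rw [f1, f2, h]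
  have k13 : (k₃ : F) ≠ k₁ := by
    intro h; apply hpr; rw [f1, f3, h]
  have E1 : ((g₂ : F) - g₁) * s₁ = (k₂ - k₁) * s₂ := by
    have : q - p = q - p := rfl
    linear_combination f2 - e2 - f1 + e1
  have E2 : ((g₃ : F) - g₁) * s₁ = (k₃ - k₁) * s₂ := by
    linear_combination f3 - e3 - f1 + e1
  have key := field_key F hF ((g₂ : F) / g₁) ((g₃ : F) / g₁) ((k₂ : F) / k₁) ((k₃ : F) / k₁)
    (d9 _ hg₂ _ hg₁) (d9 _ hg₃ _ hg₁) (d9 _ hk₂ _ hk₁) (d9 _ hk₃ _ hk₁)
    (by rwa [Ne, div_eq_one_iff_eq n3]) (by rwa [Ne, div_eq_one_iff_eq n3])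
    (fun h => g23 ((div_left_inj' n3).1 h))
    (by rwa [Ne, div_eq_one_iff_eq n4]) (by rwa [Ne, div_eq_one_iff_eq n4])
    (by
      have E3 : (((g₂ : F) - g₁) * s₁) * ((k₃ - k₁) * s₂) =
          ((g₃ : F) - g₁) * s₁ * ((k₂ - k₁) * s₂) := by
        rw [E1, E2]; ring
      have E4 : ((g₂ : F) - g₁) * (k₃ - k₁) = ((g₃ : F) - g₁) * (k₂ - k₁) := by
        have h5 : (s₁ : F) * s₂ ≠ 0 := mul_ne_zero n1 n2
        apply mul_right_cancel₀ h5
        linear_combination E3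
      field_simp
      linear_combination E4)
  -- conclusion
  have E5 : (k₂ : F) * g₁ = g₂ * k₁ := by
    rw [div_eq_div_iff n4 n3] at key
    exact key
  have E6 : (g₁ : F) * s₁ = k₁ * s₂ := by
    have h6 : ((g₂ : F) - g₁) ≠ 0 := sub_ne_zero.2 g12
    apply mul_left_cancel₀ h6
    apply mul_left_cancel₀ n4
    linear_combination (g₁ : F) * k₁ * E1 + (s₂ : F) * k₁ * E5
  have E7 : a₁ = a₂ := by
    linear_combination f1 - e1 - E6
  subst E7
  ext x
  constructor
  · rintro ⟨g, hg, rfl⟩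
    refine ⟨g * k₁ * g₁⁻¹, G.mul_mem (G.mul_mem hg hk₁) (G.inv_mem hg₁), ?_⟩
    push_cast
    field_simp
    linear_combination (g : F) * E6
  · rintro ⟨g, hg, rfl⟩
    refine ⟨g * g₁ * k₁⁻¹, G.mul_mem (G.mul_mem hg hg₁) (G.inv_mem hk₁), ?_⟩
    push_cast
    field_simp
    linear_combination -(g : F) * E6

/-! ## The two blocks of the nearfield design -/

theorem mem_block (s : NFˣ) (a x : NF) :
    x ∈ ({x | ∃ g ∈ GN, x = (g : NF) * (s : NF) + a} : Set NF) ↔
      ∃ g ∈ L9, toK x = nmul g (toK s) + toK a := by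
  constructor
  · rintro ⟨g, hg, rfl⟩
    exact ⟨toK g, hg, rfl⟩
  · rintro ⟨g, hg, h⟩
    have hg0 : g ≠ 0 := by
      rintro rfl
      revert hg
      decide
    refine ⟨Units.mk0 (show NF from g) hg0, hg, toK_inj ?_⟩
    rw [h]; rfl

/-- The multiplier of the second block. -/
def su : NFˣ := Units.mk0 (show NF from (⟨0, 3, 2⟩ : K)) (by
  intro h
  have : (⟨0, 3, 2⟩ : K) = 0 := h
  revert this
  decide)

def av : NF := (⟨1, 6, 0⟩ : K)

theorem su_mem : su ∈ SN := by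
  change norm (⟨0, 3, 2⟩ : K) ^ 3 = 1
  decide

def B1 : Set NF := {x | ∃ g ∈ GN, x = (g : NF) * ((1 : NFˣ) : NF) + 0}
def B2 : Set NF := {x | ∃ g ∈ GN, x = (g : NF) * (su : NF) + av}

theorem B1_mem : B1 ∈ Blocks NF SN GN := ⟨1, SN.one_mem, 0, rfl⟩
theorem B2_mem : B2 ∈ Blocks NF SN GN := ⟨su, su_mem, av, rfl⟩

theorem memB1 (x : NF) (h : ∃ g ∈ L9, toK x = nmul g 1 + 0) : x ∈ B1 :=
  (mem_block 1 0 x).2 h
theorem memB2 (x : NF) (h : ∃ g ∈ L9, toK x = nmul g ⟨0, 3, 2⟩ + ⟨1, 6, 0⟩) : x ∈ B2 :=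
  (mem_block su av x).2 h

def p1 : NF := (⟨0, 3, 1⟩ : K)
def p2 : NF := (⟨1, 4, 1⟩ : K)
def p3 : NF := (⟨2, 1, 2⟩ : K)

theorem B1_ne : B1 ≠ B2 := by
  intro h
  have h1 : (show NF from (1 : K)) ∈ B1 := memB1 _ (by
    change ∃ g ∈ L9, (1 : K) = nmul g 1 + 0
    decide +kernel)
  rw [h] at h1
  have h2 : ∃ g ∈ L9, (1 : K) = nmul g ⟨0, 3, 2⟩ + ⟨1, 6, 0⟩ := (mem_block su av _).1 h1
  revert h2
  decide +kernel

theorem not_iso (F : Type) [Field F] (hF : Nat.card F = 343) (S G : Subgroup Fˣ)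
    (hG : Nat.card G = 9) : ¬ Iso (Blocks NF SN GN) (Blocks F S G) := by
  rintro ⟨e, he⟩
  have h1 : e '' B1 ∈ Blocks F S G := by rw [← he]; exact ⟨B1, B1_mem, rfl⟩
  have h2 : e '' B2 ∈ Blocks F S G := by rw [← he]; exact ⟨B2, B2_mem, rfl⟩
  have m11 : p1 ∈ B1 := memB1 _ (by
    change ∃ g ∈ L9, (⟨0, 3, 1⟩ : K) = nmul g 1 + 0
    decide +kernel)
  have m21 : p2 ∈ B1 := memB1 _ (by
    change ∃ g ∈ L9, (⟨1, 4, 1⟩ : K) = nmul g 1 + 0
    decide +kernel)
  have m31 : p3 ∈ B1 := memB1 _ (by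
    change ∃ g ∈ L9, (⟨2, 1, 2⟩ : K) = nmul g 1 + 0
    decide +kernel)
  have m12 : p1 ∈ B2 := memB2 _ (by
    change ∃ g ∈ L9, (⟨0, 3, 1⟩ : K) = nmul g ⟨0, 3, 2⟩ + ⟨1, 6, 0⟩
    decide +kernel)
  have m22 : p2 ∈ B2 := memB2 _ (by
    change ∃ g ∈ L9, (⟨1, 4, 1⟩ : K) = nmul g ⟨0, 3, 2⟩ + ⟨1, 6, 0⟩
    decide +kernel)
  have m32 : p3 ∈ B2 := memB2 _ (by
    change ∃ g ∈ L9, (⟨2, 1, 2⟩ : K) = nmul g ⟨0, 3, 2⟩ + ⟨1, 6, 0⟩
    decide +kernel)
  have n12 : p1 ≠ p2 := by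
    intro h
    have : (⟨0, 3, 1⟩ : K) = ⟨1, 4, 1⟩ := h
    revert this; decide
  have n13 : p1 ≠ p3 := by
    intro h
    have : (⟨0, 3, 1⟩ : K) = ⟨2, 1, 2⟩ := h
    revert this; decide
  have n23 : p2 ≠ p3 := by
    intro h
    have : (⟨1, 4, 1⟩ : K) = ⟨2, 1, 2⟩ := h
    revert this; decide
  have h3 := field_blocks F hF S G hG _ _ h1 h2 (e p1) (e p2) (e p3)
    (fun h => n12 (e.injective h)) (fun h => n13 (e.injective h)) (fun h => n23 (e.injective h))
    ⟨_, m11, rfl⟩ ⟨_, m12, rfl⟩ ⟨_, m21, rfl⟩ ⟨_, m22, rfl⟩ ⟨_, m31, rfl⟩ ⟨_, m32, rfl⟩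
  exact B1_ne (e.injective.image_injective h3)

/-! ## The subgroups of the field `K` -/

def SK : Subgroup Kˣ where
  carrier := {u | norm (u : K) ^ 3 = 1}
  mul_mem' := by
    intro x y hx hy
    rw [Set.mem_ofPred_eq] at hx hy ⊢
    rw [Units.val_mul, norm_mul, mul_pow, hx, hy, one_mul]
  one_mem' := by
    rw [Set.mem_ofPred_eq, Units.val_one, norm_one, one_pow]
  inv_mem' := by
    intro x hx
    rw [Set.mem_ofPred_eq] at hx ⊢
    have h1 : norm (x : K) * norm ((x⁻¹ : Kˣ) : K) = 1 := by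
      rw [← norm_mul, x.mul_inv, norm_one]
    have h3 : norm (x : K) ^ 3 * norm ((x⁻¹ : Kˣ) : K) ^ 3 = 1 := by
      rw [← mul_pow, h1, one_pow]
    rwa [hx, one_mul] at h3

def GK : Subgroup Kˣ where
  carrier := {u | (u : K) ^ 9 = 1}
  mul_mem' := by
    intro x y hx hy
    rw [Set.mem_ofPred_eq] at hx hy ⊢
    rw [Units.val_mul, mul_pow, hx, hy, one_mul]
  one_mem' := by
    rw [Set.mem_ofPred_eq, Units.val_one, one_pow]
  inv_mem' := by
    intro x hx
    rw [Set.mem_ofPred_eq] at hx ⊢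
    rw [Units.val_inv_eq_inv_val, inv_pow, hx, inv_one]

theorem card_SK : Nat.card SK = 171 := by
  rw [card_sub K SK (fun x => norm x ^ 3 = 1) (by decide) (fun u => Iff.rfl)]
  decide +kernel

theorem card_GK : Nat.card GK = 9 := by
  rw [card_sub K GK (fun x => x ^ 9 = 1) (by decide) (fun u => Iff.rfl)]
  decide +kernel

theorem GK_le : GK ≤ SK := by
  intro x hx
  have h : ∀ x ∈ R9, norm x ^ 3 = 1 := by decide +kernel
  exact h _ (R9_mem _ hx)

/-- **The answer is no.**  There are a nearfield `N` of order `343`, the subgroup `S` of order `171`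
of its multiplicative group and a subgroup `G ≤ S` of order `9` such that the design
`D(N, Φ, G)` is not isomorphic to the design `D(343, 9)` of any field with `343` elements. -/
theorem result :
    ¬ Question ∧
    ∃ (N : Type) (_ : Nearfield N) (S G : Subgroup Nˣ), Nat.card N = 343 ∧ Nat.card S = 171 ∧
      G ≤ S ∧ Nat.card G = 9 ∧
      ∀ (F : Type) (_ : Field F) (S' G' : Subgroup Fˣ), Nat.card F = 343 → Nat.card S' = 171 →
        G' ≤ S' → Nat.card G' = 9 → ¬ Iso (Blocks N S G) (Blocks F S' G') := by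
  refine ⟨?_, NF, instNF, SN, GN, card_NF, card_SN, GN_le, card_GN, ?_⟩
  · intro H
    refine not_iso K (by rw [Nat.card_eq_fintype_card, card_K]) SK GK card_GK
      (H NF instNF SN GN K inferInstance SK GK ?_ ?_ GN_le ?_ ?_ ?_ GK_le ?_)
    · rw [card_NF]
    · rw [card_NF, card_SN]
    · rw [card_GN]; norm_num
    · rw [card_NF, Nat.card_eq_fintype_card, card_K]
    · rw [card_NF, card_SK]
    · rw [card_GN, card_GK]
  · intro F _ S' G' hF _ _ hG
    exact not_iso F hF S' G' hG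

end Pool.Agent.Results.MP_fd05bb_co.OrderNine
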